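import Pool.Agent.Lib.MP_696deb_nt.CK.B0
import Pool.Agent.Lib.MP_696deb_nt.CU.E5
import Pool.Agent.Lib.MP_696deb_nt.CU.E6

/-! Unramified cocycles satisfy the local condition. -/

set_option autoImplicit false

open scoped Classical

namespace Pool.Agent.Lib.MP_696deb_nt.CK

open CU

variable {n m e l q : ℕ} {c : Gam → A}

theorem lg_kT {a b : F3} (h : kT b ≠ 0) : ∃ z : O, kT a = z • kT b := by
  have h1 : b * b = 1 := e6_sq fun e => h (by rw [e, map_zero])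
  exact ⟨((a * b).val : ℕ), by
    rw [smul_kT, map_natCast, ZMod.natCast_zmod_val, mul_assoc, h1, mul_one]⟩

theorem lg_gen (i : ℕ) : ∀ {R y : A}, th ^ i • R ≠ 0 → th ^ (i + 1) • R = 0 →
    th ^ (i + 1) • y = 0 → ∃ z : O, y = z • R := by
  induction i with
  | zero =>
    intro R y h0 h1 h2
    rw [pow_zero, one_smul] at h0
    rw [zero_add, pow_one] at h1 h2
    obtain ⟨b, rfl⟩ := exists_kT h1
    obtain ⟨a, rfl⟩ := exists_kT h2
    exact lg_kT h0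
  | succ i ih =>
    intro R y h0 h1 h2
    obtain ⟨z, hz⟩ := ih (R := th • R) (y := th • y) (by rwa [← mul_smul, ← pow_succ])
      (by rwa [← mul_smul, ← pow_succ]) (by rwa [← mul_smul, ← pow_succ])
    obtain ⟨a, ha⟩ := exists_kT (P := y - z • R) (by rw [smul_sub, hz, smul_comm, sub_self])
    obtain ⟨b, hb⟩ := exists_kT (P := th ^ (i + 1) • R) (by rwa [← mul_smul, ← pow_succ'])
    obtain ⟨w, hw⟩ := lg_kT (a := a) (hb ▸ h0)
    exact ⟨z + w * th ^ (i + 1), by rw [add_smul, mul_smul, hb, ← hw, ← ha, add_sub_cancel]⟩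

theorem lg_le (d : ℕ) : ∀ {i : ℕ} {R y : A}, th ^ i • R ≠ 0 → th ^ (i + d) • R = 0 →
    th ^ (i + 1) • y = 0 → ∃ z : O, y = z • R := by
  induction d with
  | zero => exact fun h0 h1 _ => absurd h1 h0
  | succ d ih =>
    intro i R y h0 h1 h2
    by_cases h : th ^ (i + 1) • R = 0
    · exact lg_gen i h0 h h2
    · exact ih h (by rwa [add_assoc, add_comm 1]) (by rw [pow_succ', mul_smul, h2, smul_zero])

theorem lg_move (hq : q.Prime) (h3 : q ≠ 3) (n e : ℕ) :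
    ∃ (N : ℕ) (x : A), th ^ N • x = 0 ∧ act n e (fq q * fq q) x - x ≠ 0 := by
  by_contra! h
  have h1 : ∀ v, act n e (fq q * fq q) (EE.emb (q * q) v) = EE.emb (q * q) v := fun v =>
    sub_eq_zero.1 (h _ _ ((three_pow_iff _ _).1 (EE.tors _ v)))
  have h2 := wm_act n e (fq q * fq q) (EE.tors (q * q) ![1, 0]) (EE.tors (q * q) ![0, 1])
  rw [h1, h1, CU.wm, crd_emb, crd_emb, H3.cy, H3.d0b_cyc_frob (by rwa [pl_p hq])
    ((fq_frob hq).mul (fq_frob hq)), map_natCast] at h2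
  have h4 : ((1 : ℕ) : ZMod (3 ^ (q * q))) = (q * q : ℕ) := by simpa [H3.det2] using h2
  have h5 : 1 < q * q := by nlinarith [hq.one_lt]
  have h6 : q * q < 3 ^ (q * q) := Nat.lt_pow_self (by norm_num)
  rw [ZMod.natCast_eq_natCast_iff', Nat.mod_eq_of_lt h6, Nat.mod_eq_of_lt (h5.trans h6)] at h4
  omega

theorem lg_lang (hq : q.Prime) (h3 : q ≠ 3) (n e : ℕ) {t : A} (ht : th ^ l • t = 0) :
    ∃ (N : ℕ) (P : A), th ^ (l + N) • P = 0 ∧ cob (act n e) P (fq q) = t := by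
  obtain ⟨N, x, h1, h2⟩ := lg_move hq h3 n e
  obtain ⟨Q, rfl⟩ := exists_root l x
  have h4 : ∀ (z : O) (y : A), act n e (fq q * fq q) (z • y) - z • y =
      z • (act n e (fq q * fq q) y - y) := fun z y => by
    rw [CU.act_smul, if_pos ((chi_mul _ _).trans (chi_sq _)), smul_sub]
  have h5 : th ^ (l + N) • Q = 0 := by rwa [add_comm, pow_add, mul_smul]
  obtain ⟨z, hz⟩ := lg_le N (h4 _ Q ▸ h2) (by rw [← h4, h5, map_zero, sub_zero])
    (y := t) (by rw [pow_succ', mul_smul, ht, smul_zero])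
  have h6 : th ^ (l + N) • z • Q = 0 := by rw [smul_comm, h5, smul_zero]
  refine ⟨N, act n e (fq q) (z • Q) + z • Q, ?_, ?_⟩
  · rw [smul_add, ← act_th_pow, h6, map_zero, add_zero]
  · rw [hz, ← h4, H3.cob, map_add, CU.act_mul]
    abel

theorem loc_of_unr (hq : q.Prime) (h3 : q ≠ 3) (hn : kk n (sq q) = 0) (h : Coc (Gq q) (act n e) c)
    (hl : ∀ g ∈ Gq q, th ^ l • c g = 0) (hs : c (sq q) = 0) : Loc n e q c := by
  obtain ⟨N, P, h1, h2⟩ := lg_lang hq h3 n e (hl _ (fq_mem hq))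
  refine ⟨P, fun g hg => add_neg_eq_zero.1 (det (l := l + N) hq h3
    (h.add (coc_cob n e _ P).neg) (fun g hg => ?_) ?_ ?_ hg)⟩
  · rw [Pi.add_apply, Pi.neg_apply, smul_add, smul_neg, e5_kil h1, add_comm l, pow_add, mul_smul,
      hl g hg, smul_zero, neg_zero, add_zero]
  · rw [Pi.add_apply, Pi.neg_apply, hs, H3.cob, act_ine hq h3 (sq_ine hq h3) h1, hn, un_zero,
      one_smul, sub_self, neg_zero, add_zero]
  · rw [Pi.add_apply, Pi.neg_apply, h2, add_neg_cancel]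

theorem loc_good (hq : q.Prime) (h3 : q ≠ 3) (hn : kk n (sq q) = 0) (h : Loc n e q c)
    (hl : ∀ g ∈ Gq q, th ^ l • c g = 0) : c (sq q) = 0 := by
  obtain ⟨P, hP⟩ := h
  have hs := sq_ine hq h3
  refine H3.rd_K1_tors (w := pl q) ?_ (three_pow_smul (hl _ (sq_mem hq h3)))
  rw [hP _ (sq_mem hq h3), e5_ine n e (chi_ine hq h3 hs), hn, un_zero, one_smul]
  exact H3.K1_ine (by rwa [pl_p hq]) hs P

theorem lg_nd (hq : q.Prime) (k : ¬ q ∣ 3 * n) : q ≠ 3 ∧ kk n (sq q) = 0 :=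
  have h3 : q ≠ 3 := fun e => k (e ▸ dvd_mul_right 3 n)
  ⟨h3, kk_ine hq h3 (fun e => k (e.mul_left 3)) (sq_ine hq h3)⟩

theorem loc_all (h : c ∈ Zs n e l) (hq : q.Prime) : Loc n e q c := by
  by_cases k : q ∣ 3 * n
  · exact h.loc q hq k
  · exact loc_of_unr hq (lg_nd hq k).1 (lg_nd hq k).2 (h.coc.lo_mono le_top) (fun g _ => h.kil g)
      (h.unr q hq k)

theorem mem_Zs_of_loc (h : Coc ⊤ (act n e) c) (hl : ∀ g, th ^ l • c g = 0)
    (k : ∀ q : ℕ, q.Prime → Loc n e q c) : c ∈ Zs n e l :=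
  ⟨h, hl, fun q hq _ => k q hq, fun q hq k' =>
    loc_good hq (lg_nd hq k').1 (lg_nd hq k').2 (k q hq) fun g _ => hl g⟩

theorem lg_le_Zs {n' : ℕ} (h : ∀ g, kk n g = kk n' g) : Zs n e l ≤ Zs n' e l := fun _ hc =>
  mem_Zs_of_loc (coc_congr_act hc.coc fun g _ => h g) hc.kil fun _ hq =>
    (loc_all hc hq).congr (fun g _ => h g) fun _ _ => rfl

theorem zs_cube (hn : n ≠ 0) (hm : m ≠ 0) (e l : ℕ) : Zs (n * m ^ 3) e l = Zs n e l := by
  have h : ∀ g, kk (n * m ^ 3) g = kk n g := fun g => by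
    rw [kk_mul hn (pow_ne_zero 3 hm), kk_pow, show ((3 : ℕ) : F3) = 0 from rfl, zero_mul, add_zero]
  exact le_antisymm (lg_le_Zs h) (lg_le_Zs fun g => (h g).symm)

end Pool.Agent.Lib.MP_696deb_nt.CK
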