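import Pool.Agent.Lib.MP_696deb_nt.CK.Sel
import Pool.Agent.Lib.MP_696deb_nt.CU.Z1
import Pool.Agent.Lib.MP_696deb_nt.B2.LKa
import Pool.Agent.Lib.MP_23455a_nt.FG

/-! The growth of the number of Selmer cocycles, finite generation and the rank. -/

set_option autoImplicit false

open scoped Classical
open Module

namespace Pool.Agent.Lib.MP_696deb_nt.CK

open CU

variable {n r e : ℕ}

theorem lka_card (hn : n ≠ 0) (h : Gro n e) : ∃ C : ℕ, ∀ (m : ℕ) (s : Finset (Gam → A)),
    (∀ ξ ∈ s, ξ ∈ Zs n 1 (2 * m)) → s.card ≤ C * 3 ^ (e * m) := by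
  obtain ⟨C, hC⟩ := h
  refine ⟨C, fun m s hs => le_trans ?_ (hC m)⟩
  rw [← Set.ncard_coe_finset]
  exact Set.ncard_le_ncard hs (finite_Zs hn 1 (2 * m))

theorem lka_mem {m : ℕ} {Q : A} (h : ∀ g, act n 1 g (3 ^ m • Q) = 3 ^ m • Q) :
    cob (act n 1) Q ∈ Zs n 1 (2 * m) :=
  e5_mem fun g => (three_pow_iff m _).1 (by rw [cob, smul_sub, ← map_nsmul, h g, sub_self])

theorem lka_eq {Q Q' : A} (h : cob (act n 1) Q = cob (act n 1) Q') (g : Gam) :
    act n 1 g (Q - Q') = Q - Q' :=
  sub_eq_zero.1 ((cob_sub _ Q Q' g).trans (by rw [h, sub_self]))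

theorem lka_root (m : ℕ) (P : A) : ∃ Q : A, 3 ^ m • Q = P := by
  obtain ⟨Q, rfl⟩ := exists_root (2 * m) P
  refine ⟨(-1 : O) ^ m • Q, ?_⟩
  rw [← Nat.cast_smul_eq_nsmul O, smul_smul, Nat.cast_pow, Nat.cast_ofNat, ← mul_pow, pow_mul,
    th_sq, mul_neg_one]

theorem lka_ker (m : ℕ) : Nat.card (nsmulAddMonoidHom (α := A) (3 ^ m)).ker = 3 ^ (2 * m) := by
  rw [← card_tors (2 * m)]
  exact congrArg Set.ncard (Set.ext fun P => three_pow_iff m P)

theorem lka_cork (hn : n ≠ 0) (h : Gro n e) {G : Type*} [AddCommGroup G] (f : G →+ A)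
    (hf : Function.Injective f) (hr : ∀ P, P ∈ f.range ↔ ∀ g, act n 1 g P = P) :
    (nsmulAddMonoidHom (α := G) 3).range.FiniteIndex := by
  obtain ⟨C, hC⟩ := lka_card hn h
  choose rt hh using lka_root 1
  simp only [pow_one] at hh
  have : Finite (G ⧸ (nsmulAddMonoidHom (α := G) 3).range) := by
    have inj : Function.Injective fun x : G ⧸ (nsmulAddMonoidHom (α := G) 3).range =>
        cob (act n 1) (rt (f x.out)) := fun x y e => by
      obtain ⟨R, hR⟩ := (hr _).2 (lka_eq e.symm)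
      rw [← x.out_eq, ← y.out_eq]
      refine QuotientAddGroup.eq.2 ⟨R, hf ?_⟩
      rw [nsmulAddMonoidHom_apply, map_nsmul, hR, smul_sub, hh, hh, map_add, map_neg,
        neg_add_eq_sub]
    by_contra k
    rw [not_finite_iff_infinite] at k
    obtain ⟨s, hs⟩ := Infinite.exists_subset_card_eq
      (G ⧸ (nsmulAddMonoidHom (α := G) 3).range) (C * 3 ^ (e * 1) + 1)
    have := hC 1 (s.map ⟨_, inj⟩) fun ξ hξ => by
      obtain ⟨x, -, rfl⟩ := Finset.mem_map.1 hξ
      exact lka_mem fun g => by rw [pow_one, hh]; exact (hr _).1 ⟨_, rfl⟩ g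
    rw [Finset.card_map, hs] at this
    omega
  exact AddSubgroup.finiteIndex_of_finite_quotient

theorem lka_ell (hn : n ≠ 0) : (En n).IsElliptic := ⟨IsUnit.mk0 _ (by
  simp [En, WeierstrassCurve.Δ, WeierstrassCurve.b₂, WeierstrassCurve.b₄, WeierstrassCurve.b₆,
    WeierstrassCurve.b₈, hn])⟩

open Height in
theorem lka_fg (W : WeierstrassCurve ℚ) [W.IsElliptic]
    (hfin : (nsmulAddMonoidHom (α := W.toAffine.Point) 3).range.FiniteIndex) :
    Module.Finite ℤ W.toAffine.Point := by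
  obtain ⟨C, hC⟩ := approx_parallelogram W
  have e : ∀ P, logHeight₁ (xco P) = naiveHeight W P := fun P => (logHeight_xRep P).symm
  simp only [e] at hC
  have h0 : ∀ P, 0 ≤ naiveHeight W P := fun P => logHeight_nonneg _
  rw [Module.Finite.iff_addGroup_fg]
  refine AddCommGroup.fg_of_descent (h := naiveHeight W) (a := 2) (b := 9)
    (c₀ := 2 * naiveHeight W 0 + 3 * C) (c := fun g => 2 * naiveHeight W (-g) + C) (by norm_num)
    (by norm_num) hfin (fun g x => ?_) fun x => ?_
  · have h1 := abs_le.1 (hC (g + x) (-g))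
    rw [show g + x + -g = x by abel] at h1
    linarith [h0 (g + x - -g), h1.2]
  · have h1 := abs_le.1 (hC x x)
    have h2 := abs_le.1 (hC (x + x) x)
    rw [sub_self] at h1
    rw [add_sub_cancel_right, show x + x + x = 3 • x by abel] at h2
    linarith [h1.1, h2.1]

theorem lka_rank {d : ℕ} (hn : n ≠ 0) (h : Gro n e) {G : Type*} [AddCommGroup G]
    [Module.Finite ℤ G] (f : G →+ A) (hf : Function.Injective f)
    (hr : ∀ P, P ∈ f.range ↔ ∀ g, act n 1 g P = P) (hd : d ≤ finrank ℤ G) : d + 2 ≤ e := by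
  by_contra k
  obtain ⟨π, hπ⟩ := B2.lk_surj (G := G) hd
  choose P hP using hπ
  obtain ⟨C, hC⟩ := lka_card hn h
  let t := (B2.lk_finite_tors (G := G)).toFinset
  have main : ∀ m : ℕ, 3 ^ ((d + 2) * m) ≤ t.card * (C * 3 ^ (e * m)) := fun m => by
    choose Q hQ using lka_root m
    have fin : Finite (nsmulAddMonoidHom (α := A) (3 ^ m)).ker :=
      Nat.finite_of_card_ne_zero (by rw [lka_ker]; positivity)
    have := Fintype.ofFinite (nsmulAddMonoidHom (α := A) (3 ^ m)).ker
    let F : (Fin d → Fin (3 ^ m)) × (nsmulAddMonoidHom (α := A) (3 ^ m)).ker → A := fun x =>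
      Q (f (P fun i => ((x.1 i : ℕ) : ℤ))) + x.2
    have hF : ∀ x, 3 ^ m • F x = f (P fun i => ((x.1 i : ℕ) : ℤ)) := fun x => by
      have : 3 ^ m • x.2.1 = 0 := x.2.2
      rw [smul_add, hQ, this, add_zero]
    have h1 : Fintype.card ((Fin d → Fin (3 ^ m)) × (nsmulAddMonoidHom (α := A) (3 ^ m)).ker) ≤
        t.card * (Finset.univ.image fun x => cob (act n 1) (F x)).card := by
      refine Finset.card_le_mul_card_image _ _ fun q hq => ?_
      obtain ⟨y, -, rfl⟩ := Finset.mem_image.1 hq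
      have key : ∀ x, cob (act n 1) (F x) = cob (act n 1) (F y) →
          x.1 = y.1 ∧ ∃ R ∈ t, f R = x.2 - y.2 := fun x e => by
        obtain ⟨R, hR⟩ := (hr _).2 (lka_eq e)
        have a1 := congrArg (3 ^ m • ·) hR
        simp only [smul_sub, hF, ← map_nsmul, ← map_sub] at a1
        have a2 := congrArg π (hf a1)
        rw [map_nsmul, map_sub, hP, hP] at a2
        have a3 : x.1 = y.1 := funext fun i => Fin.ext (by
          have a4 := congrFun a2 i
          simp only [Pi.smul_apply, Pi.sub_apply, nsmul_eq_mul] at a4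
          exact (Nat.modEq_iff_dvd.2 ⟨_, a4.symm⟩).symm.eq_of_lt_of_lt (x.1 i).2 (y.1 i).2)
        refine ⟨a3, R, ?_, by rw [hR]; simp only [F, a3, add_sub_add_left_eq_sub]⟩
        refine (Set.Finite.mem_toFinset _).2
          (isOfFinAddOrder_iff_nsmul_eq_zero.2 ⟨3 ^ m, by positivity, hf ?_⟩)
        rw [a1, a3, sub_self]
      choose a R b c using key
      refine Finset.card_le_card_of_injOn
        (fun x => if e : cob (act n 1) (F x) = cob (act n 1) (F y) then R x e else 0)
        (fun x hx => ?_) fun x hx x' hx' e => ?_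
      · have e := (Finset.mem_filter.1 hx).2
        simpa only [dif_pos e, Finset.mem_coe] using b x e
      · have e1 := (Finset.mem_filter.1 hx).2
        have e2 := (Finset.mem_filter.1 hx').2
        simp only [dif_pos e1, dif_pos e2] at e
        exact Prod.ext ((a x e1).trans (a x' e2).symm)
          (Subtype.ext (sub_left_inj.1 ((c x e1).symm.trans (e ▸ c x' e2))))
    have h2 := hC m (Finset.univ.image fun x => cob (act n 1) (F x)) fun ξ hξ => by
      obtain ⟨x, -, rfl⟩ := Finset.mem_image.1 hξ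
      exact lka_mem fun g => by rw [hF]; exact (hr _).1 ⟨_, rfl⟩ g
    rw [Fintype.card_prod,
      ← Nat.card_eq_fintype_card (α := (nsmulAddMonoidHom (α := A) (3 ^ m)).ker), lka_ker] at h1
    refine le_trans (le_of_eq ?_) (h1.trans (Nat.mul_le_mul_left _ h2))
    rw [Fintype.card_fun, Fintype.card_fin, Fintype.card_fin]
    ring
  have h3 := (Nat.pow_le_pow_right three_pos
    (Nat.mul_le_mul_right (t.card * C) (show 1 + e ≤ d + 2 by omega))).trans (main (t.card * C))
  rw [add_mul, one_mul, pow_add, ← mul_assoc t.card] at h3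
  exact (Nat.le_of_mul_le_mul_right h3 (by positivity)).not_gt (Nat.lt_pow_self (by norm_num))

theorem fg_of_gro (hn : n ≠ 0) (h : Gro n e) : Module.Finite ℤ (En n).toAffine.Point := by
  obtain ⟨f, hf, hr⟩ := exists_pts hn
  have := lka_ell hn
  exact lka_fg _ (lka_cork hn h f hf hr)

theorem rank_of_gro (hn : n ≠ 0) (h : Gro n e) : finrank ℤ (En n).toAffine.Point + 2 ≤ e := by
  obtain ⟨f, hf, hr⟩ := exists_pts hn
  have := fg_of_gro hn h
  exact lka_rank hn h f hf hr le_rfl

end Pool.Agent.Lib.MP_696deb_nt.CK
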