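import Pool.Agent.Lib.MP_696deb_nt.CK.SelA
import Pool.Agent.Lib.MP_696deb_nt.CK.Lka

/-! The growth of the number of Selmer cocycles, and the corank. -/

set_option autoImplicit false

open scoped Classical
open Module

namespace Pool.Agent.Lib.MP_696deb_nt.CK

open CU

variable {n r e : ℕ}

/-- The points that are killed by a power of three. -/
noncomputable def lkT (k : ℕ) : AddSubgroup A := (DistribSMul.toAddMonoidHom A (th ^ (2 * k))).ker

theorem lk_card (k : ℕ) : Nat.card (lkT k) = 3 ^ (2 * k) :=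
  (Nat.card_coe_set_eq _).trans (card_tors (2 * k))

/-- The coboundary map. -/
noncomputable def lkD (n k : ℕ) : lkT k →+ Zs n 1 (2 * k) :=
  AddMonoidHom.mk' (fun P => ⟨cob (act n 1) P, cob_mem_Zs n 1 P.2⟩) fun P Q =>
    Subtype.ext (funext (cob_add _ P.1 Q.1))

theorem lk_cohom (hn : n ≠ 0) {k : ℕ} {ξ η : Gam → Pts (En n) Qbar} {c d : Zs n 1 (2 * k)}
    (hc : ∀ g, c.1 g = Psi hn (ξ g)) (hd : ∀ g, d.1 g = Psi hn (η g)) :
    Cohom (En n) (3 ^ k) ξ η ↔ (c : Zs n 1 (2 * k) ⧸ (lkD n k).range) = d := by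
  rw [QuotientAddGroup.eq_iff_sub_mem]
  constructor
  · rintro ⟨S, a, b⟩
    refine ⟨⟨Psi hn S, (three_pow_iff k _).1 (by rw [← map_nsmul, a, map_zero])⟩,
      Subtype.ext (funext fun g => ?_)⟩
    change act n 1 g (Psi hn S) - Psi hn S = c.1 g - d.1 g
    rw [hc, hd, ← Psi_pm, ← map_sub, ← map_sub]
    exact congrArg _ (b g).symm
  · rintro ⟨⟨P, a⟩, b⟩
    obtain ⟨S, rfl⟩ := (Psi hn).surjective P
    refine ⟨S, (Psi hn).injective (by rw [map_nsmul, (three_pow_iff k _).2 a, map_zero]),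
      fun g : Gam => (Psi hn).injective ?_⟩
    rw [map_sub, map_sub, ← hc, ← hd]
    exact (congrFun (congrArg Subtype.val b) g).symm.trans
      (congrArg (· - Psi hn S) (Psi_pm hn g S).symm)

theorem lk_mul (n k : ℕ) : Nat.card (lkD n k).range * Nat.card (lkD n k).ker = 3 ^ (2 * k) := by
  rw [← lk_card, AddSubgroup.card_eq_card_quotient_mul_card_addSubgroup (lkD n k).ker,
    Nat.card_congr (QuotientAddGroup.quotientKerEquivRange _).toEquiv]

theorem corank_of_gro (hn : n ≠ 0) (h : Gro n (r + 2)) : CorankLE3 (En n) r := by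
  have := fg_of_gro hn h
  obtain ⟨C, hC⟩ := h
  obtain ⟨f, f1, f2⟩ := exists_pts hn
  have ft := (B2.lk_finite_tors (G := (En n).toAffine.Point)).to_subtype
  refine ⟨Nat.card {P : (En n).toAffine.Point | IsOfFinAddOrder P} * C,
    fun k (s : Finset (Gam → Pts (En n) Qbar)) h1 h2 => ?_⟩
  have : Finite (Zs n 1 (2 * k)) := (finite_Zs hn 1 _).to_subtype
  have h3 : s.card ≤ Nat.card (Zs n 1 (2 * k) ⧸ (lkD n k).range) := by
    rw [← Nat.card_eq_finsetCard]
    exact Nat.card_le_card_of_injective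
      (fun x : s => QuotientAddGroup.mk ⟨_, zs_of_sel hn (h1 _ x.2)⟩) fun x y e =>
        Subtype.ext (h2 _ x.2 _ y.2 ((lk_cohom hn (fun _ => rfl) fun _ => rfl).2 e))
  have h4 : Nat.card (lkD n k).ker ≤ Nat.card {P : (En n).toAffine.Point | IsOfFinAddOrder P} := by
    choose R hR using fun x : (lkD n k).ker => (f2 x.1.1).2 fun g =>
      sub_eq_zero.1 (congrFun (congrArg Subtype.val x.2) g)
    exact Nat.card_le_card_of_injective (fun x => ⟨R x, isOfFinAddOrder_iff_nsmul_eq_zero.2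
      ⟨3 ^ k, by positivity, f1 (by rw [map_nsmul, hR, (three_pow_iff k _).2 x.1.2, map_zero])⟩⟩)
      fun x y e => Subtype.ext (Subtype.ext (by rw [← hR, ← hR, Subtype.mk.inj e]))
  have h5 := hC k
  rw [AddSubgroup.card_eq_card_quotient_mul_card_addSubgroup (lkD n k).range] at h5
  refine Nat.le_of_mul_le_mul_right (c := 3 ^ (2 * k)) ?_ (by positivity)
  calc s.card * 3 ^ (2 * k)
      = s.card * Nat.card (lkD n k).range * Nat.card (lkD n k).ker := by
        rw [mul_assoc, lk_mul]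
    _ ≤ _ := Nat.mul_le_mul ((Nat.mul_le_mul_right _ h3).trans h5) h4
    _ = _ := by ring

theorem gro_of_corank (hn : n ≠ 0) (h : CorankLE3 (En n) r) : Gro n (r + 2) := by
  obtain ⟨C, hC⟩ := h
  refine ⟨C, fun k => ?_⟩
  have : Finite (Zs n 1 (2 * k)) := (finite_Zs hn 1 _).to_subtype
  have := Fintype.ofFinite (Zs n 1 (2 * k) ⧸ (lkD n k).range)
  let f : Zs n 1 (2 * k) ⧸ (lkD n k).range → Gam → Pts (En n) Qbar := fun x g =>
    (Psi hn).symm (x.out.1 g)
  have key : ∀ x y, Cohom (En n) (3 ^ k) (f x) (f y) → x = y := fun x y e => by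
    have := (lk_cohom hn (fun _ => ((Psi hn).apply_symm_apply _).symm)
      fun _ => ((Psi hn).apply_symm_apply _).symm).1 e
    rwa [QuotientAddGroup.out_eq', QuotientAddGroup.out_eq'] at this
  have inj : Function.Injective f := fun x y e => by
    have := (lk_cohom hn (c := x.out) (d := y.out) (ξ := f x) (η := f x)
      (fun _ => ((Psi hn).apply_symm_apply _).symm)
      fun g => e ▸ ((Psi hn).apply_symm_apply _).symm).1 ((lk_cohom hn (c := x.out) (d := x.out)
        (fun _ => ((Psi hn).apply_symm_apply _).symm)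
        fun _ => ((Psi hn).apply_symm_apply _).symm).2 rfl)
    rwa [QuotientAddGroup.out_eq', QuotientAddGroup.out_eq'] at this
  have h2 := hC k (Finset.univ.map ⟨f, inj⟩) (fun x hx => by
    obtain ⟨y, -, rfl⟩ := Finset.mem_map.1 hx
    exact sel_of_zs hn y.out.2) fun x hx y hy e => by
    obtain ⟨z, -, rfl⟩ := Finset.mem_map.1 hx
    obtain ⟨z', -, rfl⟩ := Finset.mem_map.1 hy
    rw [key z z' e]
  have h3 := (Finset.card_map _).symm.trans_le h2
  rw [Finset.card_univ, ← Nat.card_eq_fintype_card] at h3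
  rw [AddSubgroup.card_eq_card_quotient_mul_card_addSubgroup (lkD n k).range]
  refine (Nat.mul_le_mul h3 (Nat.le_of_dvd (by positivity) (Dvd.intro _ (lk_mul n k)))).trans_eq ?_
  ring

end Pool.Agent.Lib.MP_696deb_nt.CK
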