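import Pool.Agent.Lib.MP_696deb_nt.CK.Ps
import Pool.Agent.Lib.MP_696deb_nt.TF.L1
import Pool.Agent.Lib.MP_23455a_nt.H3.FId

/-! A point whose multiple is rational over a completion is algebraic modulo rational points. -/

set_option autoImplicit false

open scoped Classical
open Filter Topology WeierstrassCurve.Affine

namespace Pool.Agent.Lib.MP_696deb_nt.CK

open CU
open Pool.Agent.Lib.MP_23455a_nt (Co mu e3 co_self co_mu exists_co pm_e3 cA cB cC)
open Pool.Agent.H3 (fid_mem fid_root)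
open Pool.Agent.H3.TA (tae_sq tae_ne)

theorem al_uniq {L : Type} [NormedField L] {x y : L} (h : x ^ 3 = y ^ 3)
    (k : ‖x - y‖ ^ 2 < ‖(3 : L)‖ * ‖y‖ ^ 2) : x = y := by
  by_contra e
  have h1 : (x - y) ^ 2 = -(3 * x * y) :=
    mul_left_cancel₀ (sub_ne_zero.2 e) (by linear_combination h)
  have h2 : ‖x‖ = ‖y‖ := (pow_left_inj₀ (norm_nonneg _) (norm_nonneg _) three_ne_zero).1
    (by rw [← norm_pow, ← norm_pow, h])
  rw [← norm_pow, h1, norm_neg, norm_mul, norm_mul, h2, mul_assoc, ← pow_two] at k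
  exact k.false

section th

variable {L : Type} [Field L] [CharZero L] {z : L} (hz : z ^ 3 = 1)

/-- The square root of `-3` as an endomorphism. -/
noncomputable def thL : PF L →+ PF L := AddMonoidHom.id _ + 2 • JK hz

theorem thL_apply (P : PF L) : thL hz P = P + 2 • JK hz P := rfl

theorem JK_sq (h1 : z ≠ 1) (P : PF L) : JK hz (JK hz P) = -P - JK hz P :=
  eq_sub_of_add_eq (tae_sq hz h1 P)

theorem thL_thL (h1 : z ≠ 1) (P : PF L) : thL hz (thL hz P) = -(3 • P) := by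
  simp only [thL_apply, map_add, map_nsmul, JK_sq hz h1]
  abel

theorem thL_ker (h1 : z ≠ 1) {P : PF L} (h : thL hz P = 0) : ∃ w, w ^ 3 = 1 ∧ P = mu w := by
  have h2 := congrArg (JK hz) h
  rw [thL_apply, map_add, map_nsmul, JK_sq hz h1, map_zero] at h2
  have h3 : JK hz P = P := by
    rw [thL_apply] at h
    rw [← sub_eq_zero, ← add_zero (0 : PF L)]
    nth_rewrite 1 [← h]
    rw [← h2]
    abel
  have c1 := co_self P
  have c2 := co_JK hz c1
  have c3 := c1.cubic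
  have c4 := c1.ne
  rw [h3] at c2
  obtain ⟨l, -, a1, a2, a3⟩ := c1.eq c2
  generalize cA P = a, cB P = b, cC P = c at *
  obtain rfl : c = 0 := by grind
  have a0 : a ≠ 0 := by grind
  have hw : (-b / a) ^ 3 = 1 := by
    rw [div_pow, div_eq_one_iff_eq (pow_ne_zero 3 a0)]
    linear_combination -c3
  refine ⟨_, hw, (c1.prop (.inr (.inl ?_)) ?_ ?_ ?_).inj (co_mu hw)⟩
  · exact neg_ne_zero.2 (pow_ne_zero 2 (tae_ne hw))
  · field_simp
  · simp
  · simp

end th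

variable {p : ℕ} [Fact p.Prime] {n : ℕ} (j : Qbar →+* PadicAlgCl p)

theorem al_step (s : AbsGal ℚ_[p]) {x x' y y' w : PadicAlgCl p} {D : ℝ} (hw : w ^ 3 = 1)
    (e : s x = w * y) (c : s (x' ^ 3) = y' ^ 3) (h1 : ‖x' - x‖ ≤ D) (h2 : ‖y' - y‖ ≤ D)
    (k : (2 * D) ^ 2 < ‖(3 : PadicAlgCl p)‖ * ‖y'‖ ^ 2) : s x' = w * y' := by
  have n1 : ‖w‖ = 1 := (pow_eq_one_iff_of_nonneg (norm_nonneg _) three_ne_zero).1
    (by rw [← norm_pow, hw, norm_one])
  refine al_uniq (L := PadicAlgCl p) (by rw [← map_pow, c, mul_pow, hw, one_mul]) ?_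
  rw [norm_mul, n1, one_mul]
  refine lt_of_le_of_lt (pow_le_pow_left₀ (norm_nonneg _) ?_ 2) k
  rw [show (s x' - w * y' : PadicAlgCl p) = s (x' - x) - w * (y' - y) by rw [map_sub, e]; ring]
  refine (norm_sub_le _ _).trans ?_
  rw [TF.norm_gal, norm_mul, n1]
  linarith

theorem al_core {δ : Qbar} (hδ : δ ≠ 0) {a b : PadicAlgCl p} (a0 : a ≠ 0) (b0 : b ≠ 0)
    (h : a ^ 3 + b ^ 3 + n = 0)
    (ht : ∀ s : AbsGal ℚ_[p], s ((a ^ 3 - b ^ 3) / j δ) = (a ^ 3 - b ^ 3) / j δ) :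
    ∃ a' b' : Qbar, a' ≠ 0 ∧ a' ^ 3 + b' ^ 3 + n = 0 ∧ ∀ (s : AbsGal ℚ_[p]) (w : PadicAlgCl p),
      w ^ 3 = 1 → (s (j δ) = j δ → s a = w * a → s b = w ^ 2 * b →
        s (j a') = w * j a' ∧ s (j b') = w ^ 2 * j b') ∧
      (s (j δ) = -j δ → s b = w * a → s a = w ^ 2 * b →
        s (j b') = w * j a' ∧ s (j a') = w ^ 2 * j b') := by
  have d0 : j δ ≠ 0 := (map_ne_zero j).2 hδ
  choose r hr using fun i : ℕ => TF.approx ht (Nat.one_div_pos_of_nat (n := i))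
  have t1 : Tendsto (fun i => (r i : PadicAlgCl p)) atTop (𝓝 ((a ^ 3 - b ^ 3) / j δ)) :=
    tendsto_iff_norm_sub_tendsto_zero.2 (squeeze_zero (fun _ => norm_nonneg _)
      (fun i => (norm_sub_rev _ _).trans_le (hr i).le) tendsto_one_div_add_atTop_nhds_zero_nat)
  obtain ⟨x, x1, hx⟩ := fid_root j 0 0 (fun i => (n - r i * δ) / 2) (z := a) (by
    simp only [map_div₀, map_sub, map_mul, map_natCast, map_ratCast, map_ofNat, Pi.zero_apply,
      map_zero]
    convert (((t1.mul_const (j δ)).const_sub (n : PadicAlgCl p)).div_const 2).const_add _ using 2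
    rw [div_mul_cancel₀ _ d0]
    linear_combination -h / 2)
  obtain ⟨y, y1, hy⟩ := fid_root j 0 0 (fun i => (n + r i * δ) / 2) (z := b) (by
    simp only [map_div₀, map_add, map_mul, map_natCast, map_ratCast, map_ofNat, Pi.zero_apply,
      map_zero]
    convert (((t1.mul_const (j δ)).const_add (n : PadicAlgCl p)).div_const 2).const_add _ using 2
    rw [div_mul_cancel₀ _ d0]
    linear_combination -h / 2)
  have t2 : Tendsto (fun i => (2 * (‖j (x i) - a‖ + ‖j (y i) - b‖)) ^ 2) atTop (𝓝 0) := by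
    simpa using (((tendsto_iff_norm_sub_tendsto_zero.1 hx).add
      (tendsto_iff_norm_sub_tendsto_zero.1 hy)).const_mul 2).pow 2
  have n3 : 0 < ‖(3 : PadicAlgCl p)‖ := norm_pos_iff.2 three_ne_zero
  obtain ⟨i, i1, i2, i3⟩ := ((t2.eventually_lt ((hx.norm.pow 2).const_mul _)
    (mul_pos n3 (pow_pos (norm_pos_iff.2 a0) 2))).and ((t2.eventually_lt ((hy.norm.pow 2).const_mul _)
    (mul_pos n3 (pow_pos (norm_pos_iff.2 b0) 2))).and (hx.eventually_ne a0.symm.symm))).exists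
  have x2 : j (x i) ^ 3 = (r i * j δ - n) / 2 := by
    have := congrArg j (x1 i)
    simp only [map_div₀, map_add, map_sub, map_mul, map_natCast, map_ratCast, map_ofNat,
      Pi.zero_apply, map_zero, map_pow] at this
    linear_combination this
  have y2 : j (y i) ^ 3 = (-(r i * j δ) - n) / 2 := by
    have := congrArg j (y1 i)
    simp only [map_div₀, map_add, map_mul, map_natCast, map_ratCast, map_ofNat,
      Pi.zero_apply, map_zero, map_pow] at this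
    linear_combination this
  have l1 := le_add_of_nonneg_right (a := ‖j (x i) - a‖) (norm_nonneg (j (y i) - b))
  have l2 := le_add_of_nonneg_left (a := ‖j (y i) - b‖) (norm_nonneg (j (x i) - a))
  refine ⟨x i, y i, fun e => i3 (by rw [e, map_zero]), j.injective ?_, fun s w hw => ?_⟩
  · simp only [map_add, map_pow, map_natCast, map_zero, x2, y2]
    ring
  have w2 : (w ^ 2) ^ 3 = 1 := by rw [pow_right_comm, hw, one_pow]
  refine ⟨fun e e1 e2 => ⟨al_step s hw e1 ?_ l1 l1 i1, al_step s w2 e2 ?_ l2 l2 i2⟩,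
    fun e e1 e2 => ⟨al_step s hw e1 ?_ l2 l1 i1, al_step s w2 e2 ?_ l1 l2 i2⟩⟩ <;>
  simp only [x2, y2, map_div₀, map_sub, map_neg, map_mul, map_ratCast, map_natCast, map_ofNat, e,
    mul_neg, neg_neg]

theorem j_rho (n : ℕ) : j (rho n) ^ 3 = n := by rw [← map_pow, rho_cube, map_natCast]

/-- The twisted action of the local Galois group. -/
noncomputable def ltw (hn : n ≠ 0) (s : AbsGal ℚ_[p]) : PF (PadicAlgCl p) →+ PF (PadicAlgCl p) :=
  (JK (rt_cube hn (j_rho j n) (j_rho j n) (s : PadicAlgCl p →+* PadicAlgCl p))).comp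
    (pf (s : PadicAlgCl p →+* PadicAlgCl p))

theorem co_ltw (hn : n ≠ 0) (s : AbsGal ℚ_[p]) {P : PF (PadicAlgCl p)} {a b : PadicAlgCl p}
    (h : Co P a b (j (rho n))) : Co (ltw j hn s P) (s a) (s b) (j (rho n)) := by
  have h0 := rt_ne hn (j_rho j n)
  have h1 : s (j (rho n)) ^ 3 = j (rho n) ^ 3 := by rw [← map_pow, j_rho, map_natCast]
  have h2 : (s (j (rho n)) / j (rho n)) ^ 2 * s (j (rho n)) = j (rho n) := by
    field_simp
    exact h1
  nth_rewrite 1 [← h2]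
  exact co_JK (rt_cube hn (j_rho j n) (j_rho j n) (s : PadicAlgCl p →+* PadicAlgCl p))
    (h.map (s : PadicAlgCl p →+* PadicAlgCl p))

theorem co_eq {L : Type} [Field L] {P : PF L} {a b a' b' c : L} (hc : c ≠ 0) (h : Co P a b c)
    (h' : Co P a' b' c) : a = a' ∧ b = b' := by
  obtain ⟨l, -, a1, a2, a3⟩ := h.eq h'
  rw [a1, a2, (mul_eq_right₀ hc).1 a3.symm, one_mul, one_mul]
  exact ⟨rfl, rfl⟩

theorem al_one (hn : n ≠ 0) {δ : Qbar} (hδ : δ ≠ 0) {ε : AbsGal ℚ_[p] → ℤ}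
    (hε : ∀ s, ε s = 1 ∧ s (j δ) = j δ ∨ ε s = -1 ∧ s (j δ) = -j δ) {S : PF (PadicAlgCl p)}
    (h : ∀ s, ∃ w, w ^ 3 = 1 ∧ ε s • ltw j hn s S - S = mu w) :
    ∃ Q : A, ∀ s, ε s • ltw j hn s (S - pf j Q) = S - pf j Q := by
  have h0 := rt_ne hn (j_rho j n)
  by_cases k : cA S * cB S * cC S = 0
  · obtain ⟨i, w, hw, rfl⟩ := (co_self S).exists_e3 k
    obtain ⟨w, rfl⟩ := fid_mem j (a := 0) (b := 0) (c := -1) (z := w) (by simp [hw])
    exact ⟨e3 i w, fun s => by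
      rw [pm_e3 _ _ (j.injective (by simpa using hw)), sub_self, map_zero, smul_zero]⟩
  simp only [mul_eq_zero, not_or] at k
  have l0 := div_ne_zero h0 k.2
  have c1 := (co_self S).smul l0
  have a0 := mul_ne_zero l0 k.1.1
  have b0 := mul_ne_zero l0 k.1.2
  rw [div_mul_cancel₀ _ k.2] at c1
  generalize j (rho n) / cC S * cA S = a, j (rho n) / cC S * cB S = b at c1 a0 b0
  choose w hw e using h
  have rel : ∀ s, (ε s = 1 ∧ s (j δ) = j δ) ∧ s a = w s * a ∧ s b = w s ^ 2 * b ∨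
      (ε s = -1 ∧ s (j δ) = -j δ) ∧ s b = w s * a ∧ s a = w s ^ 2 * b := fun s => by
    have c2 := c1.add_mu (hw s)
    rw [← e s, add_sub_cancel] at c2
    refine (hε s).imp (fun k => ⟨k, ?_⟩) fun k => ⟨k, ?_⟩ <;> rw [k.1] at c2
    · exact co_eq h0 (co_ltw j hn s c1) (by rwa [one_smul] at c2)
    · exact co_eq h0 (co_ltw j hn s c1).neg (by rwa [neg_one_zsmul] at c2)
  obtain ⟨a', b', a1, a2, a3⟩ := al_core j hδ a0 b0 (j_rho j n ▸ c1.cubic) fun s => by
    have w3 := hw s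
    rcases rel s with ⟨⟨-, k1⟩, k2, k3⟩ | ⟨⟨-, k1⟩, k2, k3⟩ <;>
      rw [map_div₀, map_sub, map_pow, map_pow, k1, k2, k3, mul_pow, mul_pow, pow_right_comm, w3,
        one_pow, one_mul, one_mul]
    rw [div_neg, ← neg_div, neg_sub]
  obtain ⟨Q, hQ⟩ := exists_co (C := rho n) (rho_cube n ▸ a2) (.inl a1)
  have c3 := hQ.map j
  refine ⟨Q, fun s => ?_⟩
  have c4 := co_ltw j hn s c3
  rw [map_sub, smul_sub, sub_eq_sub_iff_sub_eq_sub, e s, eq_sub_iff_add_eq']
  refine (c3.add_mu (hw s)).inj ?_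
  rcases rel s with ⟨⟨k0, k1⟩, k2, k3⟩ | ⟨⟨k0, k1⟩, k2, k3⟩
  · obtain ⟨k4, k5⟩ := (a3 s _ (hw s)).1 k1 k2 k3
    rwa [k0, one_smul, ← k4, ← k5]
  · obtain ⟨k4, k5⟩ := (a3 s _ (hw s)).2 k1 k2 k3
    rw [k0, neg_one_zsmul, ← k4, ← k5]
    exact c4.neg

theorem j_z : j (zeta 1 ^ 2) ^ 3 = 1 := by rw [← map_pow, zsq_cube, map_one]

theorem j_ne : j (zeta 1 ^ 2) ≠ 1 := fun e => H3.zeta_one_ne (by
  have h := H3.TA.zeta_cube
  rwa [pow_succ, j.injective (e.trans (map_one j).symm), one_mul] at h)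

theorem pf_th (Q : A) : pf j (th • Q) = thL (j_z j) (pf j Q) := by
  rw [thL_apply, ← pf_JK j zsq_cube, ← map_nsmul, ← map_add]
  exact congrArg _ (by simp [smul_def, th, two_nsmul, two_zsmul]; rfl)

theorem al_three (hn : n ≠ 0) {S : PF (PadicAlgCl p)} (h : ∀ s, ltw j hn s (3 • S) = 3 • S) :
    ∃ Q : A, ∀ s, ltw j hn s (S - pf j Q) = S - pf j Q := by
  have z1 := j_z j
  have z2 := j_ne j
  have z3 : j (zeta 1 ^ 2) ^ 2 + j (zeta 1 ^ 2) + 1 = 0 :=
    mul_left_cancel₀ (sub_ne_zero.2 z2) (by linear_combination z1)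
  have e : j (1 + 2 * zeta 1 ^ 2) = 1 + 2 * j (zeta 1 ^ 2) := by
    rw [map_add, map_one, map_mul, map_ofNat]
  have key : ∀ s : AbsGal ℚ_[p], ∃ ε : ℤ,
      (ε = 1 ∧ s (j (1 + 2 * zeta 1 ^ 2)) = j (1 + 2 * zeta 1 ^ 2) ∨
        ε = -1 ∧ s (j (1 + 2 * zeta 1 ^ 2)) = -j (1 + 2 * zeta 1 ^ 2)) ∧
      ∀ P, ε • ltw j hn s (thL z1 P) = thL z1 (ltw j hn s P) := fun s => by
    have s1 : (s : PadicAlgCl p →+* PadicAlgCl p) (j (zeta 1 ^ 2)) ^ 3 = 1 := by
      rw [← map_pow, z1, map_one]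
    have s2 : ∀ P, ltw j hn s (JK z1 P) = JK s1 (ltw j hn s P) := fun P => by
      simp only [ltw, AddMonoidHom.comp_apply, pf_JK _ z1 s1, JK_JK]
      exact JK_congr _ _ (mul_comm _ _) _
    have s3 := congrArg s z3
    rw [map_add, map_add, map_pow, map_one, map_zero] at s3
    have s4 : (s (j (zeta 1 ^ 2)) - j (zeta 1 ^ 2)) *
        (s (j (zeta 1 ^ 2)) - j (zeta 1 ^ 2) * j (zeta 1 ^ 2)) = 0 := by
      linear_combination s3 - s (j (zeta 1 ^ 2)) * z3 + z1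
    rw [e, map_add, map_one, map_mul, map_ofNat]
    rcases mul_eq_zero.1 s4 with k | k <;> rw [sub_eq_zero] at k
    · exact ⟨1, .inl ⟨rfl, by rw [k]⟩, fun P => by
        rw [one_smul, thL_apply, thL_apply, map_add, map_nsmul, s2, JK_congr s1 z1 k]⟩
    · refine ⟨-1, .inr ⟨rfl, by rw [k]; linear_combination 2 * z3⟩, fun P => ?_⟩
      rw [neg_one_zsmul, thL_apply, thL_apply, map_add, map_nsmul, s2, JK_congr s1 (MP_23455a_nt.cube_mul z1 z1) k,
        ← JK_JK z1 z1, JK_sq z1 z2]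
      abel
  choose ε h1 h2 using key
  obtain ⟨Q, hQ⟩ := al_one j hn (δ := 1 + 2 * zeta 1 ^ 2) (fun k => by
    rw [k, map_zero] at e
    have : (3 : PadicAlgCl p) = 0 := by
      linear_combination 4 * z3 + (1 + 2 * j (zeta 1 ^ 2)) * e
    exact three_ne_zero this) h1 (S := thL z1 S) fun s => thL_ker z1 z2 (by
      rw [h2, ← map_sub, thL_thL z1 z2, smul_sub, ← map_nsmul, h, sub_self, neg_zero])
  obtain ⟨Q, rfl⟩ := exists_root 1 Q
  rw [pow_one, pf_th, ← map_sub] at hQ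
  obtain ⟨Q', hQ'⟩ := al_one j hn (δ := 1) one_ne_zero (ε := fun _ => 1)
    (fun s => .inl ⟨rfl, by rw [map_one, map_one]⟩) (S := S - pf j Q) fun s => thL_ker z1 z2 (by
      rw [one_smul, map_sub, ← h2, hQ, sub_self])
  exact ⟨Q + Q', fun s => by simpa only [map_add, one_smul, sub_sub] using hQ' s⟩

theorem al_pow (hn : n ≠ 0) (m : ℕ) {S : PF (PadicAlgCl p)}
    (h : ∀ s, ltw j hn s (3 ^ m • S) = 3 ^ m • S) :
    ∃ Q : A, ∀ s, ltw j hn s (S - pf j Q) = S - pf j Q := by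
  induction m generalizing S with
  | zero => exact ⟨0, by simpa using h⟩
  | succ m ih =>
    obtain ⟨Q, hQ⟩ := ih (S := 3 • S) (by simpa only [pow_succ, mul_nsmul'] using h)
    obtain ⟨Q, rfl⟩ := MP_23455a_nt.exists_third Q
    obtain ⟨Q', hQ'⟩ := al_three j hn (S := S - pf j Q) (by
      simpa only [map_nsmul, nsmul_sub] using hQ)
    exact ⟨Q + Q', fun s => by simpa only [map_add, sub_sub] using hQ' s⟩

end Pool.Agent.Lib.MP_696deb_nt.CK
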