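import Pool.Agent.Lib.MP_696deb_nt.CK.Stmt
import Pool.Agent.Lib.MP_696deb_nt.CU.E1

/-! Names. -/

namespace Pool.Agent.Lib.MP_696deb_nt.CK

export Pool.Agent.Lib.MP_696deb_nt.CU (F3 O A JJ om th un nu red T kT chi ep rho kk act Kc Gq Iq sq
  fq Loc IsZ Zs kC)
export Pool.Agent.Lib.MP_696deb_nt.B2 (Qbar Gam Plc Dec Ine Sm cc)
export Pool.Agent.Lib.MP_696deb_nt.Sm (pl pl_p)
export Pool.Agent.H3 (Coc cob T3 zeta cy)
export Pool.Agent.Lib.MP_696deb_nt.B2.Stmt (Pts pm AbsGal LocTriv IsSel Cohom)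

end Pool.Agent.Lib.MP_696deb_nt.CK
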