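import Pool.Agent.Lib.MP_696deb_nt.CK.B0
import Pool.Agent.Lib.MP_696deb_nt.VarChange

/-! The isomorphism between the twist and the Fermat cubic. -/

set_option autoImplicit false

open scoped Classical
open WeierstrassCurve WeierstrassCurve.Affine

namespace Pool.Agent.Lib.MP_696deb_nt.CK

open CU
open Pool.Agent.Lib.MP_23455a_nt (W27 Co)
open Pool.Agent.H3.TA (taeOm tae_add tae_ext tae_sq tae_ne)

/-- The points of the Fermat cubic. -/
abbrev PF (K : Type) [Field K] : Type := MP_23455a_nt.Pt K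

variable {K L : Type} [Field K] [CharZero K] [Field L] [CharZero L] {n : ℕ}

/-- The map on the points of the Fermat cubic induced by a homomorphism of fields. -/
noncomputable abbrev pf (f : K →+* L) : PF K →+ PF L := MP_23455a_nt.pm f

/-- The automorphism attached to a cube root of unity. -/
noncomputable def JK {z : K} (hz : z ^ 3 = 1) : PF K →+ PF K :=
  AddMonoidHom.mk' (taeOm hz) (tae_add hz)

theorem JK_JK {z w : K} (hz : z ^ 3 = 1) (hw : w ^ 3 = 1) (P : PF K) :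
    JK hz (JK hw P) = JK (MP_23455a_nt.cube_mul hz hw) P := by
  rcases P with _ | ⟨x, y, h⟩
  · rfl
  · exact tae_ext (mul_assoc _ _ _).symm rfl

theorem JK_congr {z w : K} (hz : z ^ 3 = 1) (hw : w ^ 3 = 1) (e : z = w) (P : PF K) :
    JK hz P = JK hw P := by
  subst e
  rfl

theorem JK_one {z : K} (hz : z ^ 3 = 1) (e : z = 1) (P : PF K) : JK hz P = P := by
  rcases P with _ | ⟨x, y, h⟩
  · rfl
  · exact tae_ext (by rw [e, one_mul]) rfl

theorem pf_JK (f : K →+* L) {z : K} (hz : z ^ 3 = 1) (hw : f z ^ 3 = 1) (P : PF K) :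
    pf f (JK hz P) = JK hw (pf f P) := by
  rcases P with _ | ⟨x, y, h⟩
  · rfl
  · exact tae_ext (map_mul f z x) rfl

theorem co_JK {z : K} (hz : z ^ 3 = 1) {P : PF K} {a b c : K} (h : Co P a b c) :
    Co (JK hz P) a b (z * c) := by
  obtain ⟨m, hm, rfl, rfl, rfl⟩ := h
  refine ⟨m, hm, ?_⟩
  rcases P with _ | ⟨x, y, h⟩
  · exact ⟨rfl, rfl, by
      change z * (m * 0) = m * 0
      ring⟩
  · exact ⟨rfl, rfl, by
      change z * (m * (-3 * x)) = m * (-3 * (z * x))
      ring⟩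

theorem om_pow (i : ℕ) (h : ((zeta 1 ^ 2) ^ i) ^ 3 = 1) (P : A) : om ^ i • P = JK h P := by
  induction i with
  | zero => rw [pow_zero, one_smul, JK_one _ (pow_zero _)]
  | succ i ih =>
    have k : ((zeta 1 ^ 2) ^ i) ^ 3 = 1 := by rw [pow_right_comm, zsq_cube, one_pow]
    rw [pow_succ', mul_smul, ih k, om_smul]
    exact (JK_JK zsq_cube k P).trans (JK_congr _ _ (pow_succ' _ _).symm P)

theorem rt_ne (hn : n ≠ 0) {ρ : K} (h : ρ ^ 3 = n) : ρ ≠ 0 := by
  rintro rfl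
  exact hn (by exact_mod_cast (h.symm.trans (by norm_num) : (n : K) = 0))

theorem vc (hn : n ≠ 0) {ρ : K} (h : ρ ^ 3 = n) :
    VC (RingHom.id K) ((En n).baseChange K) (W27.baseChange K) (1 / (2 * ρ)) 0 0 (-1 / 2) := by
  have h0 := rt_ne hn h
  refine ⟨by simp [h0], ?_, ?_, ?_, ?_, ?_⟩ <;> simp [En, W27, WeierstrassCurve.baseChange]
  · norm_num
  · rw [← h]
    field_simp
    norm_num

/-- The isomorphism. -/
noncomputable def psi (hn : n ≠ 0) {ρ : K} (h : ρ ^ 3 = n) : Pts (En n) K ≃+ PF K :=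
  AddEquiv.ofBijective (vc hn h).hom ⟨(vc hn h).hom_injective, by
    have h0 := rt_ne hn h
    rintro (_ | ⟨X, Y, k⟩)
    · exact ⟨0, rfl⟩
    · exact (vc hn h).mem_range k (x := X * (2 * ρ) ^ 2) (y := (Y + 1 / 2) * (2 * ρ) ^ 3)
        (by rw [RingHom.id_apply]; field_simp; ring)
        (by simp only [RingHom.id_apply]; field_simp; ring)⟩

theorem rt_cube (hn : n ≠ 0) {ρ : K} (h : ρ ^ 3 = n) {ρ' : L} (h' : ρ' ^ 3 = n) (f : K →+* L) :
    ((f ρ / ρ') ^ 2) ^ 3 = 1 := by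
  rw [pow_right_comm, div_pow, ← map_pow, h, h', map_natCast, div_self (Nat.cast_ne_zero.2 hn),
    one_pow]

theorem psi_pm (hn : n ≠ 0) {ρ : K} (h : ρ ^ 3 = n) {ρ' : L} (h' : ρ' ^ 3 = n) (f : K →+* L)
    (P : Pts (En n) K) :
    psi hn h' (pm (En n) f P) = JK (rt_cube hn h h' f) (pf f (psi hn h P)) := by
  have h0 := rt_ne hn h
  have h1 := rt_ne hn h'
  have h2 : f ρ ≠ 0 := (map_ne_zero f).2 h0
  have h3 : f ρ ^ 3 = ρ' ^ 3 := by rw [← map_pow, h, h', map_natCast]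
  rcases P with _ | ⟨x, y, k⟩
  · rfl
  refine tae_ext ?_ ?_
  · simp [map_ofNat]
    field_simp
  · simp [map_ofNat, mul_pow, h3]

/-- The isomorphism on algebraic points. -/
noncomputable def Psi (hn : n ≠ 0) : Pts (En n) Qbar ≃+ A := psi hn (rho_cube n)

theorem Psi_pm (hn : n ≠ 0) (g : Gam) (P : Pts (En n) Qbar) :
    Psi hn (pm (En n) (g : Qbar →+* Qbar) P) = act n 1 g (Psi hn P) := by
  rw [act_apply, one_add_one_eq_two, pow_two, ep_sq, one_smul, un,
    om_pow _ (by rw [pow_right_comm, zsq_cube, one_pow])]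
  refine (psi_pm hn (rho_cube n) (rho_cube n) _ P).trans (JK_congr _ _ ?_ _)
  rw [RingHom.coe_coe, kk_spec, mul_div_cancel_left₀ _ (rho_ne hn), pow_right_comm]

end Pool.Agent.Lib.MP_696deb_nt.CK
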