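import Pool.Agent.Lib.MP_696deb_nt.CK.Ps
import Pool.Agent.Lib.MP_696deb_nt.CK.Lg
import Pool.Agent.Lib.MP_696deb_nt.B2.LKa

/-! The two definitions of the Selmer cocycles agree. -/

set_option autoImplicit false

open scoped Classical
open WeierstrassCurve WeierstrassCurve.Affine

namespace Pool.Agent.Lib.MP_696deb_nt.CK

open CU

variable {n k : ℕ}

theorem sel_pm (hn : n ≠ 0) (g : Gam) (P : A) :
    (Psi hn).symm (act n 1 g P) = pm (En n) (g : Qbar →+* Qbar) ((Psi hn).symm P) := by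
  rw [AddEquiv.symm_apply_eq, Psi_pm, AddEquiv.apply_symm_apply]

theorem sel_loc (hn : n ≠ 0) {c : Gam → A} {F : Type} [Field F] [CharZero F]
    (h : ∀ j : Qbar →+* AlgebraicClosure F, ∃ S, ∀ (s : AbsGal F) (σ : Gam),
      (∀ x, j (σ x) = s (j x)) → c σ = cob (act n 1) S σ) :
    LocTriv (En n) F fun g : Gam => (Psi hn).symm (c g) := fun j => by
  obtain ⟨S, hS⟩ := h j
  refine ⟨pm (En n) j ((Psi hn).symm S), fun s (σ : Gam) e => ?_⟩
  have u : ∀ P, pm (En n) j (pm (En n) (σ : Qbar →+* Qbar) P) =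
      pm (En n) (s : AlgebraicClosure F →+* AlgebraicClosure F) (pm (En n) j P) := by
    rintro (_ | ⟨x, y, h⟩)
    · rfl
    · exact (Point.some.injEq ..).mpr ⟨e x, e y⟩
  beta_reduce
  rw [hS s σ e, cob, map_sub, sel_pm, ← u]
  exact map_sub (Point.map (W' := (En n).toAffine) j.toRatAlgHom) _ _

theorem sel_of_zs (hn : n ≠ 0) {c : Gam → A} (h : c ∈ Zs n 1 (2 * k)) :
    IsSel (En n) (3 ^ k) fun g : Gam => (Psi hn).symm (c g) := by
  have coc : ∀ g g' : Gam, c (g * g') = c g + act n 1 g (c g') := fun g g' =>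
    h.coc.2 g trivial g' trivial
  have kil : ∀ g, 3 ^ k • c g = 0 := fun g => (three_pow_iff k _).2 (h.kil g)
  refine ⟨?_, fun g : Gam => (map_nsmul _ _ _).symm.trans (by rw [kil, map_zero]),
    fun σ τ : Gam => (congrArg (Psi hn).symm (coc σ τ)).trans (by rw [map_add, sel_pm]; rfl),
    sel_loc hn fun j => ?_, fun p _ => sel_loc hn fun j => ?_⟩
  · let _ : TopologicalSpace (Pts (En n) Qbar) := ⊥
    have : DiscreteTopology (Pts (En n) Qbar) := ⟨rfl⟩
    exact (IsLocallyConstant.iff_continuous _).2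
      (continuousOn_univ.1 (h.coc.1.comp (Psi hn).symm).continuousOn)
  · obtain ⟨t, ht⟩ := B2.lk_real j
    obtain ⟨m, hm⟩ : Odd (3 ^ k) := Odd.pow (by decide)
    refine ⟨m • c (t * cc * t⁻¹), fun s σ e => ?_⟩
    rcases ht s σ e with rfl | rfl
    · rw [coc_one h.coc, cob, CU.act_one, sub_self]
    · have h1 := coc (t * cc * t⁻¹) (t * cc * t⁻¹)
      rw [show t * cc * t⁻¹ * (t * cc * t⁻¹) = t * (cc * cc) * t⁻¹ by group, B2.cc_mul_cc, mul_one,
        mul_inv_cancel, coc_one h.coc] at h1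
      have h2 := kil (t * cc * t⁻¹)
      rw [cob, map_nsmul, ← neg_eq_of_add_eq_zero_right h1.symm]
      rw [hm] at h2
      linear_combination (norm := module) h2
  · obtain ⟨w, hw⟩ := B2.lk_plc p j
    obtain ⟨S, hS⟩ := loc_all h w.prime
    obtain ⟨g, hg⟩ := B2.plc_conj (w := pl w.p) (v := w) (pl_p w.prime)
    refine ⟨act n 1 g S - c g, fun s σ e => ?_⟩
    have hc := hw s σ e
    rw [← hg, B2.mem_Dec_smul] at hc
    have h3 := coc g (g⁻¹ * σ * g)
    rw [← mul_assoc, ← mul_assoc, mul_inv_cancel, one_mul, coc, hS _ hc, cob, map_sub,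
      ← CU.act_mul, ← mul_assoc, ← mul_assoc, mul_inv_cancel, one_mul, CU.act_mul] at h3
    rw [cob, map_sub, eq_sub_of_add_eq h3]
    abel

theorem sel_vc (n : ℕ) : VC (algebraMap ℚ Qbar) (En n) ((En n).baseChange Qbar) 1 0 0 0 := by
  refine ⟨one_ne_zero, ?_, ?_, ?_, ?_, ?_⟩ <;> simp [WeierstrassCurve.baseChange]

theorem sel_pts (P : Pts (En n) Qbar) :
    P ∈ (sel_vc n).hom.range ↔ ∀ g : Gam, pm (En n) (g : Qbar →+* Qbar) P = P := by
  rcases P with _ | ⟨x, y, h⟩
  · exact iff_of_true ⟨0, rfl⟩ fun g => rfl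
  constructor
  · rintro ⟨_ | ⟨a, b, k⟩, e⟩ g
    · exact absurd e.symm (Point.some_ne_zero _)
    · obtain ⟨e1, e2⟩ := (Point.some.injEq ..).mp e
      obtain rfl : algebraMap ℚ Qbar a = x := by simpa using e1
      obtain rfl : algebraMap ℚ Qbar b = y := by simpa using e2
      exact (Point.some.injEq ..).mpr ⟨g.commutes a, g.commutes b⟩
  · intro k
    obtain ⟨a, rfl⟩ := B2.fx_top (x := x) fun g _ => ((Point.some.injEq ..).mp (k g)).1
    obtain ⟨b, rfl⟩ := B2.fx_top (x := y) fun g _ => ((Point.some.injEq ..).mp (k g)).2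
    exact (sel_vc n).mem_range _ (x := a) (y := b) (by simp) (by simp)

theorem exists_pts (hn : n ≠ 0) : ∃ f : (En n).toAffine.Point →+ A, Function.Injective f ∧
    ∀ P, P ∈ f.range ↔ ∀ g, act n 1 g P = P := by
  refine ⟨(Psi hn).toAddMonoidHom.comp (sel_vc n).hom,
    (Psi hn).injective.comp (sel_vc n).hom_injective, fun P => ?_⟩
  obtain ⟨Q, rfl⟩ := (Psi hn).surjective P
  simp only [← Psi_pm, (Psi hn).injective.eq_iff, ← sel_pts]
  exact exists_congr fun R => (Psi hn).injective.eq_iff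

end Pool.Agent.Lib.MP_696deb_nt.CK
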