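import Pool.Agent.Lib.MP_696deb_nt.CK.Al
import Pool.Agent.Lib.MP_696deb_nt.CK.Lg

/-! Selmer cocycles defined with completions are Selmer cocycles defined with decomposition
groups. -/

set_option autoImplicit false

open scoped Classical

namespace Pool.Agent.Lib.MP_696deb_nt.CK

open CU

variable {n k : ℕ}

theorem sa_pm {K L M : Type} [Field K] [CharZero K] [Field L] [CharZero L] [Field M] [CharZero M]
    (W : WeierstrassCurve ℚ) (f : K →+* L) (g : L →+* M) (P : Pts W K) :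
    pm W g (pm W f P) = pm W (g.comp f) P := by
  cases P <;> rfl

section

variable {p : ℕ} [Fact p.Prime] (j : Qbar →+* PadicAlgCl p)

theorem sa_j (hn : n ≠ 0) (P : Pts (En n) Qbar) :
    psi hn (j_rho j n) (pm (En n) j P) = pf j (Psi hn P) :=
  (psi_pm hn (rho_cube n) (j_rho j n) j P).trans
    (JK_one _ (by rw [div_self (rt_ne hn (j_rho j n)), one_pow]) _)

theorem sa_s (hn : n ≠ 0) (s : AbsGal ℚ_[p]) (P : Pts (En n) (PadicAlgCl p)) :
    psi hn (j_rho j n) (pm (En n) (s : PadicAlgCl p →+* PadicAlgCl p) P) =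
      ltw j hn s (psi hn (j_rho j n) P) := psi_pm hn (j_rho j n) (j_rho j n) _ P

theorem sa_ltw (hn : n ≠ 0) {s : AbsGal ℚ_[p]} {σ : Gam} (h : ∀ x, j (σ x) = s (j x)) (Q : A) :
    ltw j hn s (pf j Q) = pf j (act n 1 σ Q) := by
  obtain ⟨P, rfl⟩ := (Psi hn).surjective Q
  have e : (s : PadicAlgCl p →+* PadicAlgCl p).comp j = j.comp (σ : Qbar →+* Qbar) :=
    RingHom.ext fun x => (h x).symm
  rw [← Psi_pm, ← sa_j, ← sa_j, ← sa_s, sa_pm, sa_pm, e]

end

theorem zs_of_sel (hn : n ≠ 0) {ξ : Gam → Pts (En n) Qbar} (h : IsSel (En n) (3 ^ k) ξ) :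
    (fun g => Psi hn (ξ g)) ∈ Zs n 1 (2 * k) := by
  obtain ⟨h1, h2, h3, -, h4⟩ := h
  replace h2 : ∀ σ : Gam, 3 ^ k • Psi hn (ξ σ) = 0 := fun σ =>
    (map_nsmul (Psi hn) _ _).symm.trans ((congrArg _ (h2 σ)).trans (map_zero _))
  let _ : TopologicalSpace A := ⊥
  have : DiscreteTopology A := ⟨rfl⟩
  have c1 : Continuous fun g => Psi hn (ξ g) := (h1.comp (Psi hn)).continuous
  refine mem_Zs_of_loc ⟨B2.Sm.of_continuousOn isClosed_univ c1.continuousOn, fun g _ g' _ => ?_⟩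
    (fun g => (three_pow_iff k _).1 (h2 g)) fun p hp => ?_
  · exact (congrArg (Psi hn) (h3 g g')).trans ((map_add _ _ _).trans
      (congrArg _ (Psi_pm hn g _)))
  have := Fact.mk hp
  obtain ⟨j, hj⟩ := TF.ex_emb (pl p) (pl_p hp)
  obtain ⟨S, hS⟩ := h4 p j
  have hS' : ∀ (s : AbsGal ℚ_[p]) (σ : Gam), (∀ x, j (σ x) = s (j x)) → pf j (Psi hn (ξ σ)) =
      ltw j hn s (psi hn (j_rho j n) S) - psi hn (j_rho j n) S := fun s σ e => by
    rw [← sa_j, ← sa_s, ← map_sub]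
    exact congrArg _ (hS s σ e)
  generalize psi hn (j_rho j n) S = S at hS'
  obtain ⟨Q, hQ⟩ := al_pow j hn k (S := S) fun s => by
    obtain ⟨σ, hσ⟩ := TF.ex_res j s
    rw [map_nsmul, ← sub_eq_zero, ← smul_sub, ← hS' s σ hσ, ← map_nsmul, h2, map_zero]
  refine ⟨Q, fun g hg => closure_minimal (t := {g | Psi hn (ξ g) = cob (act n 1) Q g}) ?_
    (isClosed_eq c1 (continuousOn_univ.1 (coc_cob n 1 ⊤ Q).1.continuousOn))
    (TF.dec_closure j (hj g hg))⟩
  rintro σ ⟨s, hσ⟩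
  have k2 := hQ s
  rw [map_sub, sa_ltw j hn hσ, sub_eq_sub_iff_sub_eq_sub, ← hS' s σ hσ, ← map_sub] at k2
  exact WeierstrassCurve.Affine.Point.map_injective _ k2

end Pool.Agent.Lib.MP_696deb_nt.CK
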