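import Pool.Agent.Lib.MP_696deb_nt.B2.Stmt

/-! The corank of the Selmer group of three-power level, and the cubic twists. -/

set_option autoImplicit false

open scoped Classical

namespace Pool.Agent.Lib.MP_696deb_nt.CK

open Pool.Agent.Lib.MP_696deb_nt.B2.Stmt

/-- The order of the `3 ^ k`-Selmer group is at most a constant times `3 ^ (r k)`; this says that
the `3 ^ ∞`-Selmer group has corank at most `r`. -/
def CorankLE3 (W : WeierstrassCurve ℚ) (r : ℕ) : Prop :=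
  ∃ C : ℕ, ∀ (k : ℕ) (s : Finset (AbsGal ℚ → Pts W (AlgebraicClosure ℚ))),
    (∀ ξ ∈ s, IsSel W (3 ^ k) ξ) → (∀ ξ ∈ s, ∀ η ∈ s, Cohom W (3 ^ k) ξ η → ξ = η) →
    s.card ≤ C * 3 ^ (r * k)

/-- The curve `y ^ 2 = x ^ 3 - 432 n ^ 2`, a model of `x ^ 3 + y ^ 3 = n`. -/
def En (n : ℕ) : WeierstrassCurve ℚ := ⟨0, 0, 0, ((0 : ℤ) : ℚ), ((-432 * (n : ℤ) ^ 2 : ℤ) : ℚ)⟩

end Pool.Agent.Lib.MP_696deb_nt.CK
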